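import Pool.Agent.Results.MP_b69c94_gt.SquareNotLindelof

/-!
# Lindelöf `ω`-stable spaces with a prescribed first non-Lindelöf power

For every cardinal `κ` with `2 ≤ κ ≤ ℵ₀` there is a Lindelöf `ω`-stable space `X` such that `X ^ J`
is Lindelöf exactly if `J` has fewer than `κ` elements.

The trees of the starting file with the topologies given by sets of levels `A i` are used, where
`A i` is the complement of `S i` in the union of pairwise disjoint large sets `S i`, and `i` ranges
over a set with `κ` elements.  The new point is that a finite product of such trees is Lindelöf if the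
intersection of the sets of levels is large.  This uses that every uncountable family of tuples of
nodes contains many tuples which are pairwise incomparable in every coordinate.
-/

set_option autoImplicit false
set_option linter.unusedSectionVars false
set_option linter.unusedVariables false
set_option linter.all false

open Set Topology

namespace Pool.Agent.Results.MP_b69c94_gt.ExactExponent

open Pool.Agent.Results.MP_b69c94_gt.SquareNotLindelof

section sets

variable {Ω : Type} [LinearOrder Ω] [WellFoundedLT Ω] [Uncountable Ω]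

/-- Infinitely many pairwise disjoint large sets of limit points (Ulam matrix). -/
lemma exists_disjoint_seq (hc : ∀ a : Ω, (Iio a).Countable) : ∃ S : ℕ → Set Ω,
    (∀ i, ¬ SquareNotLindelof.Small (S i)) ∧ (∀ i j, i ≠ j → Disjoint (S i) (S j)) ∧ ∀ i, ∀ a ∈ S i, Lim a := by
  classical
  have hinj : ∀ a : Ω, ∃ e : Ω → ℕ, InjOn e (Iio a) := fun a =>
    countable_iff_exists_injOn.1 (hc a)
  choose e he using hinj
  let S : ℕ → Ω → Set Ω := fun n b => {a | Lim a ∧ b < a ∧ e a b = n}
  have h1 : ∀ b : Ω, ∃ n, ¬ SquareNotLindelof.Small (S n b) := by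
    intro b
    by_contra hcon
    push Not at hcon
    apply not_small_univ hc
    refine SquareNotLindelof.Small.mono (B := ((⋃ n, S n b) ∪ {a | ¬ Lim a}) ∪ Iic b) ?_ ?_
    · intro a _
      by_cases hab : b < a
      · by_cases hl : Lim a
        · exact Or.inl (Or.inl (mem_iUnion.2 ⟨e a b, hl, hab, rfl⟩))
        · exact Or.inl (Or.inr hl)
      · exact Or.inr (not_lt.1 hab)
    · exact ((SquareNotLindelof.Small.iUnion hcon).union (small_not_lim hc)).union
        (SquareNotLindelof.Small.of_countable (countable_Iic hc b))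
  choose n hn using h1
  have hk : ∃ k, ¬ (n ⁻¹' {k}).Countable := by
    by_contra hcon
    push Not at hcon
    have : (univ : Set Ω) = ⋃ k, n ⁻¹' {k} := by
      ext x; simp
    exact not_countable_univ (this ▸ countable_iUnion hcon)
  obtain ⟨k, hk⟩ := hk
  have hinf : (n ⁻¹' {k}).Infinite := fun h => hk h.countable
  let g : ℕ ↪ n ⁻¹' {k} := hinf.natEmbedding
  refine ⟨fun i => S k (g i), fun i => ?_, fun i j hij => ?_, fun i a ha => ha.1⟩
  · have h2 := hn (g i)
    have h3 : n (g i) = k := (g i).2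
    rwa [h3] at h2
  · rw [Set.disjoint_left]
    rintro a ⟨-, h1, h2⟩ ⟨-, h3, h4⟩
    apply hij
    have : (g i : Ω) = g j := he a h1 h3 (by rw [h2, h4])
    exact g.injective (Subtype.ext this)

end sets

section tuples

variable {Ω T : Type} [LinearOrder Ω] [PartialOrder T] {k : ℕ}

/-- Incomparable in every coordinate. -/
def Inc (p q : Fin k → T) : Prop := ∀ j, ¬ p j ≤ q j ∧ ¬ q j ≤ p j

lemma Inc.symm {p q : Fin k → T} (h : Inc p q) : Inc q p := fun j => ⟨(h j).2, (h j).1⟩

lemma tuples_countable (𝒯 : ATree Ω T) (a : Ω) :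
    {p : Fin k → T | ∀ j, 𝒯.lv (p j) = a}.Countable :=
  Set.countable_pi (s := fun _ => {t | 𝒯.lv t = a}) fun _ => 𝒯.cnt a

lemma le_countable (𝒯 : ATree Ω T) (hc : ∀ a : Ω, (Iio a).Countable) (a : Ω) :
    {t | 𝒯.lv t ≤ a}.Countable := by
  have : {t | 𝒯.lv t ≤ a} = {t | 𝒯.lv t < a} ∪ {t | 𝒯.lv t = a} := by
    ext t
    simp [le_iff_lt_or_eq]
  rw [this]
  exact (below_countable 𝒯 hc a).union (𝒯.cnt a)

/-- The filter of the sets which contain almost all points of `F`. -/
def coc {α : Type} (F : Set α) : Filter α where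
  sets := {s | (F \ s).Countable}
  univ_sets := by simp
  sets_of_superset := fun h1 h2 => Set.Countable.mono (sdiff_subset_sdiff_right h2) h1
  inter_sets := fun h1 h2 => by
    have h1 : (F \ _).Countable := h1
    have h2 : (F \ _).Countable := h2
    refine Set.Countable.mono ?_ (h1.union h2)
    rintro x ⟨hx, hx'⟩
    by_contra hcon
    apply hx'
    constructor
    · by_contra h3
      exact hcon (Or.inl ⟨hx, h3⟩)
    · by_contra h3
      exact hcon (Or.inr ⟨hx, h3⟩)

lemma mem_coc {α : Type} {F s : Set α} : s ∈ coc F ↔ (F \ s).Countable := Iff.rfl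

/-- An uncountable family of tuples, each on one level, contains arbitrarily large finite
families which are pairwise incomparable in every coordinate. -/
lemma exists_incomparable (𝒯 : ATree Ω T) (hc : ∀ a : Ω, (Iio a).Countable)
    (F : Set (Fin (k + 1) → T)) (hF : ¬ F.Countable)
    (hlv : ∀ p ∈ F, ∀ j j', 𝒯.lv (p j) = 𝒯.lv (p j')) (N : ℕ) :
    ∃ s : Finset (Fin (k + 1) → T), s.card = N ∧ (∀ p ∈ s, p ∈ F) ∧
      ∀ p ∈ s, ∀ q ∈ s, p ≠ q → Inc p q := by
  classical
  haveI hne : (coc F).NeBot := by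
    rw [Filter.neBot_iff]
    intro h
    apply hF
    have : (∅ : Set (Fin (k + 1) → T)) ∈ coc F := by rw [h]; exact Filter.mem_bot
    rw [mem_coc, sdiff_empty] at this
    exact this
  let U : Ultrafilter (Fin (k + 1) → T) := Ultrafilter.of (coc F)
  have hU : ∀ s, (F \ s).Countable → s ∈ U := fun s hs => Ultrafilter.of_le (coc F) hs
  have hFU : F ∈ U := hU F (by simp)
  let G : Set (Fin (k + 1) → T) := {p | p ∈ F ∧ {q | Inc p q} ∉ U}
  have hG : G.Countable := by
    have hsub : G ⊆ ⋃ j, {p | p ∈ F ∧ {q : Fin (k + 1) → T | p j ≤ q j} ∈ U} := by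
      rintro p ⟨hp, hpU⟩
      have h1 : {q : Fin (k + 1) → T | Inc p q}ᶜ ∈ U := Ultrafilter.compl_mem_iff_notMem.2 hpU
      have h2 : {q : Fin (k + 1) → T | 𝒯.lv (p 0) < 𝒯.lv (q 0)} ∈ U := by
        apply hU
        have hcnt : (⋃ a ∈ Iic (𝒯.lv (p 0)),
            {q : Fin (k + 1) → T | ∀ j, 𝒯.lv (q j) = a}).Countable := by
          refine Set.Countable.biUnion ?_ fun a _ => tuples_countable 𝒯 a
          have : Iic (𝒯.lv (p 0)) = Iio (𝒯.lv (p 0)) ∪ {𝒯.lv (p 0)} := by
            ext x; simp [le_iff_lt_or_eq, or_comm]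
          rw [this]
          exact (hc _).union (countable_singleton _)
        refine hcnt.mono ?_
        rintro q ⟨hq, hq'⟩
        exact mem_biUnion (x := 𝒯.lv (q 0)) (not_lt.1 hq') fun j => hlv q hq j 0
      have h3 : {q : Fin (k + 1) → T | ∃ j, p j ≤ q j} ∈ U := by
        filter_upwards [h1, h2, hFU] with q hq1 hq2 hq3
        have hq1 : ¬ Inc p q := hq1
        unfold Inc at hq1
        push Not at hq1
        obtain ⟨j, hj⟩ := hq1
        refine ⟨j, ?_⟩
        by_contra hcon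
        have h4 := hj hcon
        have h5 := ATree.lv_le (𝒯 := 𝒯) h4
        have h6 : 𝒯.lv (p 0) < 𝒯.lv (q 0) := hq2
        rw [hlv p hp 0 j, hlv q hq3 0 j] at h6
        exact absurd h6 (not_lt.2 h5)
      have h4 : (⋃ j ∈ (univ : Set (Fin (k + 1))), {q : Fin (k + 1) → T | p j ≤ q j}) ∈ U := by
        filter_upwards [h3] with q hq
        obtain ⟨j, hj⟩ := hq
        exact mem_biUnion (x := j) (mem_univ j) hj
      rw [Ultrafilter.finite_biUnion_mem_iff finite_univ] at h4
      obtain ⟨j, -, hj⟩ := h4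
      exact mem_iUnion.2 ⟨j, hp, hj⟩
    refine Set.Countable.mono hsub (countable_iUnion fun j => ?_)
    have hch : ((fun p : Fin (k + 1) → T => p j) ''
        {p | p ∈ F ∧ {q : Fin (k + 1) → T | p j ≤ q j} ∈ U}).Countable := by
      apply 𝒯.nochain
      rintro _ ⟨p, ⟨hp, hpU⟩, rfl⟩ _ ⟨p', ⟨hp', hpU'⟩, rfl⟩
      obtain ⟨q, hq, hq'⟩ := U.nonempty_of_mem (Filter.inter_mem hpU hpU')
      exact 𝒯.tree hq hq'
    refine Set.Countable.mono ?_ (hch.biUnion fun t _ =>
      tuples_countable (k := k + 1) 𝒯 (𝒯.lv t))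
    rintro p hp
    exact mem_biUnion (x := p j) ⟨p, hp, rfl⟩ fun j' => hlv p hp.1 j' j
  induction N with
  | zero => exact ⟨∅, rfl, by simp, by simp⟩
  | succ N ih =>
    have key : ∀ N : ℕ, ∃ s : Finset (Fin (k + 1) → T), s.card = N ∧ (∀ p ∈ s, p ∈ F ∧ p ∉ G) ∧
        ∀ p ∈ s, ∀ q ∈ s, p ≠ q → Inc p q := by
      intro N
      induction N with
      | zero => exact ⟨∅, rfl, by simp, by simp⟩
      | succ N ih =>
        obtain ⟨s, hs1, hs2, hs3⟩ := ih
        have h1 : ∀ p ∈ s, {q | Inc p q} ∈ U := by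
          intro p hp
          by_contra hcon
          exact (hs2 p hp).2 ⟨(hs2 p hp).1, hcon⟩
        have h2 : (⋂ p ∈ s, {q | Inc p q}) ∈ U :=
          (Filter.biInter_finset_mem s).2 h1
        have h3 : F \ G ∈ U := hU _ (by
          refine hG.mono ?_
          rintro x ⟨hx, hx'⟩
          by_contra hcon
          exact hx' ⟨hx, hcon⟩)
        obtain ⟨q, hq1, hq2⟩ := U.nonempty_of_mem (Filter.inter_mem h2 h3)
        have hq1' : ∀ p ∈ s, Inc p q := fun p hp => by
          have := mem_iInter₂.1 hq1 p hp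
          exact this
        have hqs : q ∉ s := fun h => ((hq1' q h) 0).1 le_rfl
        refine ⟨insert q s, by rw [Finset.card_insert_of_notMem hqs, hs1], ?_, ?_⟩
        · intro p hp
          rcases Finset.mem_insert.1 hp with rfl | hp
          · exact hq2
          · exact hs2 p hp
        · intro p hp p' hp' hne
          rcases Finset.mem_insert.1 hp with h4 | h4 <;>
            rcases Finset.mem_insert.1 hp' with h5 | h5
          · exact absurd (h4.trans h5.symm) hne
          · rw [h4]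
            exact (hq1' p' h5).symm
          · rw [h5]
            exact hq1' p h4
          · exact hs3 p h4 p' h5 hne
    obtain ⟨s, h1, h2, h3⟩ := key (N + 1)
    exact ⟨s, h1, fun p hp => (h2 p hp).1, h3⟩

/-- Finitely many members of an uncountable family of boxes cover the product of the cones. -/
lemma cover_cone (𝒯 : ATree Ω T) (hc : ∀ a : Ω, (Iio a).Countable)
    (F : Set (Fin (k + 1) → T)) (hF : ¬ F.Countable)
    (hlv : ∀ p ∈ F, ∀ j j', 𝒯.lv (p j) = 𝒯.lv (p j')) (s : Fin (k + 1) → T) :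
    ∃ P : Finset (Fin (k + 1) → T), (∀ p ∈ P, p ∈ F) ∧
      ∀ x : Fin (k + 1) → T, (∀ j, s j < x j) → ∃ p ∈ P, ∀ j, x j ∈ Nb (s j) (p j) := by
  classical
  obtain ⟨P, hP1, hP2, hP3⟩ := exists_incomparable 𝒯 hc F hF hlv (k + 2)
  refine ⟨P, hP2, fun x hx => ?_⟩
  by_contra hcon
  push Not at hcon
  have h1 : ∀ p : P, ∃ j, p.1 j ≤ x j := by
    intro p
    obtain ⟨j, hj⟩ := hcon p.1 p.2
    refine ⟨j, ?_⟩
    by_contra h
    exact hj (Or.inl ⟨hx j, h⟩)
  choose f hf using h1
  have hinj : Function.Injective f := by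
    intro p q hpq
    by_contra hne
    have h2 := hP3 p.1 p.2 q.1 q.2 (fun h => hne (Subtype.ext h)) (f p)
    have h3 := hf q
    rw [← hpq] at h3
    rcases 𝒯.tree (hf p) h3 with h4 | h4
    · exact h2.1 h4
    · exact h2.2 h4
  have := Fintype.card_le_of_injective f hinj
  rw [Fintype.card_coe, hP1, Fintype.card_fin] at this
  omega

end tuples

section products

variable {Ω T : Type} [LinearOrder Ω] [PartialOrder T] {𝒯 : ATree Ω T}

/-- The level bound of a tuple. -/
lemma pi_box {k : ℕ} (B : Fin (k + 1) → Set Ω) (hBL : ∀ j, ∀ a ∈ B j, Lim a)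
    (V : Set (∀ j, Sp 𝒯 (B j))) (hV : IsOpen V) (p : ∀ j, Sp 𝒯 (B j)) (hp : p ∈ V)
    (hlv : ∀ j, 𝒯.lv (p j : T) ∈ B j) :
    ∃ s : Fin (k + 1) → T, (∀ j, s j < (p j : T)) ∧
      ∀ x : ∀ j, Sp 𝒯 (B j), (∀ j, (x j : T) ∈ Nb (s j) (p j : T)) → x ∈ V := by
  rw [isOpen_pi_iff'] at hV
  obtain ⟨u, hu, hus⟩ := hV p hp
  have hex : ∀ j, ∃ s : T, s < (p j : T) ∧ Nb s (p j : T) ⊆ (u j : Set T) := by
    intro j
    obtain ⟨r, hr⟩ := exists_lt (𝒯 := 𝒯) (hBL j _ (hlv j))
    exact (hu j).1 (p j) (hu j).2 (hlv j) r hr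
  choose s hs hsu using hex
  exact ⟨s, hs, fun x hx => hus fun j _ => hsu j (hx j)⟩

theorem pi_lindelof (hc : ∀ a : Ω, (Iio a).Countable) : ∀ (k : ℕ) (B : Fin k → Set Ω)
    (hBL : ∀ j, ∀ a ∈ B j, Lim a) (hB : ¬ SquareNotLindelof.Small (⋂ j, B j)), LindelofSpace (∀ j, Sp 𝒯 (B j)) := by
  intro k
  induction k with
  | zero =>
    intro B _ _
    infer_instance
  | succ k ih =>
    intro B hBL hB
    classical
    refine ⟨isLindelof_of_countable_subcover fun {ι} U hU hcov => ?_⟩
    have hcov' : ∀ x : (∀ j, Sp 𝒯 (B j)), ∃ i, x ∈ U i := fun x => mem_iUnion.1 (hcov (mem_univ x))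
    choose i hi using hcov'
    -- the points with one coordinate of small level
    have hslice : ∀ (j : Fin (k + 1)) (t : T), ∃ c : Set ι, c.Countable ∧
        {x : ∀ j, Sp 𝒯 (B j) | x j = t} ⊆ ⋃ i ∈ c, U i := by
      intro j t
      have hL : LindelofSpace (∀ i, Sp 𝒯 (B (j.succAbove i))) :=
        ih (fun i => B (j.succAbove i)) (fun i => hBL _) (fun h => hB (h.mono fun a ha =>
          mem_iInter.2 fun i => mem_iInter.1 ha _))
      have hcont : Continuous (fun y : ∀ i, Sp 𝒯 (B (j.succAbove i)) =>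
          (j.insertNth (α := fun j => Sp 𝒯 (B j)) (t : Sp 𝒯 (B j)) y)) :=
        continuous_const.finInsertNth j continuous_id
      have hr := isLindelof_range hcont
      obtain ⟨c, hcc, hcs⟩ := hr.elim_countable_subcover U hU ((subset_univ _).trans hcov)
      refine ⟨c, hcc, ?_⟩
      intro x hx
      apply hcs
      refine ⟨fun i => x (j.succAbove i), ?_⟩
      have hx : x j = t := hx
      rw [← hx]
      exact Fin.insertNth_self_removeNth j x
    choose cs hcs1 hcs2 using hslice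
    let good : (Fin (k + 1) → T) → Prop := fun s =>
      ∃ c : Set ι, c.Countable ∧ {x : ∀ j, Sp 𝒯 (B j) | ∀ j, s j < (x j : T)} ⊆ ⋃ i ∈ c, U i
    have hgood : ∃ a, ∀ t : Fin (k + 1) → T, (∀ j, 𝒯.lv (t j) = a) →
        ∃ s, (∀ j, s j < t j) ∧ good s := by
      by_contra hcon
      push Not at hcon
      choose q hq hqg using hcon
      have hex : ∀ a, ∃ s : Fin (k + 1) → T, a ∈ (⋂ j, B j) → (∀ j, s j < q a j) ∧
          ∀ x : ∀ j, Sp 𝒯 (B j), (∀ j, (x j : T) ∈ Nb (s j) (q a j)) → x ∈ U (i (q a)) := by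
        intro a
        by_cases ha : a ∈ (⋂ j, B j)
        · obtain ⟨s, hs1, hs2⟩ := pi_box B hBL (U (i (q a))) (hU _) (q a) (hi (q a))
            (fun j => by
              have := mem_iInter.1 ha j
              rw [← hq a j] at this
              exact this)
          exact ⟨s, fun _ => ⟨hs1, hs2⟩⟩
        · exact ⟨q a, fun h => absurd h ha⟩
      choose s hs using hex
      apply hB
      let m : (Fin (k + 1) → T) → Ω := fun s =>
        Finset.univ.sup' Finset.univ_nonempty (fun j => 𝒯.lv (s j))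
      refine ⟨fun a => m (s a), ?_, fun b => ?_⟩
      · refine Set.Countable.mono ?_ countable_empty
        rintro a ⟨ha, ha'⟩
        apply ha'
        simp only [m]
        rw [Finset.sup'_lt_iff]
        intro j _
        have := 𝒯.lv_lt ((hs a ha).1 j)
        rwa [hq] at this
      · have hsub : {a ∈ (⋂ j, B j) | m (s a) = b} ⊆
            ⋃ s0 ∈ {t : Fin (k + 1) → T | ∀ j, t j ∈ {t | 𝒯.lv t ≤ b}},
              {a ∈ (⋂ j, B j) | s a = s0} := by
          rintro a ⟨ha, ha'⟩
          refine mem_biUnion (x := s a) (fun j => ?_) ⟨ha, rfl⟩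
          rw [← ha']
          exact Finset.le_sup' (fun j => 𝒯.lv (s a j)) (Finset.mem_univ j)
        refine Countable.mono hsub ((Set.countable_pi fun _ =>
          le_countable 𝒯 hc b).biUnion fun s0 _ => ?_)
        have hqi : InjOn q {a ∈ (⋂ j, B j) | s a = s0} := by
          intro a _ a' _ h
          rw [← hq a 0, ← hq a' 0, h]
        refine countable_of_injective_of_countable_image hqi ?_
        by_contra hun
        obtain ⟨P, hP1, hP2⟩ := cover_cone 𝒯 hc _ hun (by
          rintro _ ⟨a, _, rfl⟩ j j'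
          rw [hq, hq]) s0
        obtain ⟨_, a, ⟨ha, has⟩, rfl⟩ : (q '' {a ∈ (⋂ j, B j) | s a = s0}).Nonempty := by
          rw [nonempty_iff_ne_empty]
          intro h
          rw [h] at hun
          exact hun countable_empty
        refine hqg a s0 (by rw [← has]; exact (hs a ha).1) ⟨i '' (P : Set (Fin (k + 1) → T)),
          (P.finite_toSet.image i).countable, ?_⟩
        intro x hx
        obtain ⟨p, hp, hpx⟩ := hP2 x hx
        obtain ⟨a', ⟨ha', has'⟩, rfl⟩ := hP1 p hp
        refine mem_biUnion (x := i (q a')) ⟨_, hp, rfl⟩ ((hs a' ha').2 x ?_)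
        rw [has']
        exact hpx
    obtain ⟨a, ha⟩ := hgood
    have hex : ∀ t : Fin (k + 1) → T, ∃ (s : Fin (k + 1) → T) (c : Set ι), c.Countable ∧
        ((∀ j, 𝒯.lv (t j) = a) → (∀ j, s j < t j) ∧
          {x : ∀ j, Sp 𝒯 (B j) | ∀ j, s j < (x j : T)} ⊆ ⋃ i ∈ c, U i) := by
      intro t
      by_cases h : ∀ j, 𝒯.lv (t j) = a
      · obtain ⟨s, hs, c, hcc, hcs⟩ := ha t h
        exact ⟨s, c, hcc, fun _ => ⟨hs, hcs⟩⟩
      · exact ⟨t, ∅, countable_empty, fun h' => absurd h' h⟩
    choose s c hcc hcs using hex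
    refine ⟨(⋃ j, ⋃ t ∈ {t | 𝒯.lv t < a}, cs j t) ∪
      ⋃ t ∈ {t : Fin (k + 1) → T | ∀ j, 𝒯.lv (t j) = a}, c t,
      (countable_iUnion fun j => (below_countable 𝒯 hc a).biUnion fun t _ => hcs1 j t).union
        ((tuples_countable 𝒯 a).biUnion fun t _ => hcc t), ?_⟩
    intro x _
    by_cases hx : ∃ j, 𝒯.lv (x j : T) < a
    · obtain ⟨j, hj⟩ := hx
      obtain ⟨i, hi, hxi⟩ := mem_iUnion₂.1 (hcs2 j (x j : T) (show x j = x j from rfl))
      exact mem_biUnion (x := i) (Or.inl (mem_iUnion.2 ⟨j, mem_biUnion (x := (x j : T)) hj hi⟩)) hxi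
    · push Not at hx
      have hr : ∀ j, ∃ t : T, t ≤ (x j : T) ∧ 𝒯.lv t = a := fun j => 𝒯.restr _ a (hx j)
      choose t ht1 ht2 using hr
      obtain ⟨h1, h2⟩ := hcs t ht2
      obtain ⟨i, hi, hxi⟩ := mem_iUnion₂.1 (h2 (show x ∈ _ from fun j => (h1 j).trans_le (ht1 j)))
      exact mem_biUnion (x := i) (Or.inr (mem_biUnion (x := t) ht2 hi)) hxi

end products

section final

variable {Ω T : Type} [LinearOrder Ω] [PartialOrder T] {𝒯 : ATree Ω T} {I : Type} [Countable I]

lemma regular_sigma {X : I → Type} [∀ i, TopologicalSpace (X i)] [∀ i, RegularSpace (X i)] :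
    RegularSpace (Σ i, X i) := by
  apply RegularSpace.of_exists_mem_nhds_isClosed_subset
  rintro ⟨i, x⟩ s hs
  have h1 : Sigma.mk i ⁻¹' s ∈ 𝓝 x := continuous_sigmaMk.continuousAt hs
  obtain ⟨t, ht, htc, hts⟩ := exists_mem_nhds_isClosed_subset h1
  refine ⟨Sigma.mk i '' t, isOpenMap_sigmaMk.image_mem_nhds ht, isClosedMap_sigmaMk _ htc, ?_⟩
  rintro _ ⟨a, ha, rfl⟩
  exact hts ha

/-- The power `X ^ m` of the sum is Lindelöf if all intersections of `m` sets of levels are
large. -/
theorem power_lindelof (hc : ∀ a : Ω, (Iio a).Countable) (A : I → Set Ω)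
    (hAL : ∀ i, ∀ a ∈ A i, Lim a) (m : ℕ)
    (h : ∀ f : Fin m → I, ¬ SquareNotLindelof.Small (⋂ j, A (f j))) :
    LindelofSpace (Fin m → Σ i, Sp 𝒯 (A i)) := by
  rw [← isLindelof_univ_iff]
  have hu : (univ : Set (Fin m → Σ i, Sp 𝒯 (A i))) =
      ⋃ f : Fin m → I, range (fun y : ∀ j, Sp 𝒯 (A (f j)) =>
        (fun j => (⟨f j, y j⟩ : Σ i, Sp 𝒯 (A i)))) := by
    symm
    rw [eq_univ_iff_forall]
    intro x
    exact mem_iUnion.2 ⟨fun j => (x j).1, fun j => (x j).2, rfl⟩
  rw [hu]
  refine isLindelof_iUnion fun f => ?_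
  haveI : LindelofSpace (∀ j, Sp 𝒯 (A (f j))) :=
    pi_lindelof hc m (fun j => A (f j)) (fun j => hAL _) (h f)
  refine isLindelof_range (continuous_pi fun j => ?_)
  exact continuous_sigmaMk.comp (continuous_apply j)

/-- The power of the sum with all indices is not Lindelöf if no level is in all sets of levels. -/
theorem power_not_lindelof [Uncountable T] (A : I → Set Ω)
    (hAL : ∀ i, ∀ a ∈ A i, Lim a) (hA : ∀ a, ∃ i, a ∉ A i) (i0 : I) :
    ¬ LindelofSpace (I → Σ i, Sp 𝒯 (A i)) := by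
  intro hL
  have hTC : T3Space (Sp 𝒯 (⋃ i, A i)) :=
    t3 (𝒯 := 𝒯) (P := {t | 𝒯.lv t ∈ ⋃ i, A i}) fun p hp => by
      obtain ⟨i, hi⟩ := mem_iUnion.1 hp
      exact hAL i _ hi
  let φ : (Σ i, Sp 𝒯 (A i)) → Sp 𝒯 (⋃ i, A i) := fun x => toSp 𝒯 x.2
  have hφ : Continuous φ := continuous_sigma fun i => continuous_toSp (subset_iUnion A i)
  let d : T → (I → Σ i, Sp 𝒯 (A i)) := fun t i => ⟨i, t⟩
  have hcl : IsClosed (range d) := by
    have : range d = (⋂ i, (fun x : I → Σ i, Sp 𝒯 (A i) => x i) ⁻¹' range (Sigma.mk i)) ∩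
        ⋂ i, {x : I → Σ i, Sp 𝒯 (A i) | φ (x i) = φ (x i0)} := by
      ext x
      constructor
      · rintro ⟨t, rfl⟩
        refine ⟨mem_iInter.2 fun i => ⟨t, rfl⟩, mem_iInter.2 fun i => rfl⟩
      · rintro ⟨h1, h2⟩
        rw [mem_iInter] at h1 h2
        choose y hy using h1
        refine ⟨y i0, funext fun i => ?_⟩
        have h3 : φ (x i) = φ (x i0) := h2 i
        have h4 : x i = ⟨i, y i⟩ := (hy i).symm
        have h5 : x i0 = ⟨i0, y i0⟩ := (hy i0).symm
        rw [h4, h5] at h3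
        have h6 : (y i : T) = y i0 := h3
        rw [h4]
        exact congrArg (fun t : T => (⟨i, t⟩ : Σ i, Sp 𝒯 (A i))) h6.symm
    rw [this]
    refine IsClosed.inter (isClosed_iInter fun i => ?_) (isClosed_iInter fun i => ?_)
    · exact isClosed_range_sigmaMk.preimage (continuous_apply i)
    · exact isClosed_eq (hφ.comp (continuous_apply i)) (hφ.comp (continuous_apply i0))
  have hlin : IsLindelof (range d) := hcl.isLindelof
  choose e he using hA
  let W : T → Set (I → Σ i, Sp 𝒯 (A i)) := fun t =>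
    (fun x => x (e (𝒯.lv t))) ⁻¹' (Sigma.mk (e (𝒯.lv t)) '' ({t} : Set (Sp 𝒯 (A (e (𝒯.lv t))))))
  have hW : ∀ t, IsOpen (W t) := by
    intro t
    refine IsOpen.preimage (continuous_apply _) (isOpenMap_sigmaMk _ ?_)
    exact isOpen_sing (hAL _) t (he _)
  have hW1 : ∀ t s, d s ∈ W t ↔ s = t := by
    intro t s
    constructor
    · rintro ⟨t', ht', h2⟩
      have ht' : t' = t := ht'
      have h3 : (⟨e (𝒯.lv t), t'⟩ : Σ i, Sp 𝒯 (A i)) = ⟨e (𝒯.lv t), s⟩ := h2
      have h4 : (t' : T) = s := by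
        have := congrArg φ h3
        exact this
      rw [← h4, ht']
    · rintro rfl
      exact ⟨s, rfl, rfl⟩
  obtain ⟨c, hcc, hcs⟩ := hlin.elim_countable_subcover W hW (by
    rintro _ ⟨t, rfl⟩
    exact mem_iUnion.2 ⟨t, (hW1 t t).2 rfl⟩)
  have : (univ : Set T) ⊆ c := by
    intro t _
    obtain ⟨s, hs, hts⟩ := mem_iUnion₂.1 (hcs ⟨t, rfl⟩)
    rw [hW1] at hts
    rw [hts]
    exact hs
  exact not_countable_univ (hcc.mono this)

theorem sum_omegaStable [WellFoundedLT Ω] [Uncountable Ω] (hc : ∀ a : Ω, (Iio a).Countable)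
    (A : I → Set Ω) (hAL : ∀ i, ∀ a ∈ A i, Lim a)
    (hA : ∀ i, ¬ SquareNotLindelof.Small (A i)) : OmegaStable (Σ i, Sp 𝒯 (A i)) := by
  intro Y Z _ _ _ _ _ f g hf hfs hg hgb
  have h1 : ∀ i, (range (fun x : Sp 𝒯 (A i) => g (f (Sigma.mk i x)))).Countable := fun i =>
    countable_img' hc (A i) (hA i) (hAL i) _ (hg.comp (hf.comp continuous_sigmaMk))
  have hY : Countable Y := by
    have h3 : (univ : Set Y) ⊆ g ⁻¹' (⋃ i, range (fun x : Sp 𝒯 (A i) => g (f (Sigma.mk i x)))) := by
      intro y _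
      obtain ⟨⟨i, x⟩, rfl⟩ := hfs y
      exact mem_iUnion.2 ⟨i, x, rfl⟩
    exact countable_univ_iff.1 (((countable_iUnion h1).preimage hgb.1).mono h3)
  refine ⟨range fun y : Y => ({y} : Set Y), countable_range _, fun U _ => ?_⟩
  refine ⟨(fun y : Y => ({y} : Set Y)) '' U, ?_, ?_⟩
  · rintro _ ⟨y, _, rfl⟩
    exact ⟨y, rfl⟩
  · ext y; simp

/-- The construction for a countable index set with at least two elements. -/
theorem main (I : Type) [Countable I] [Nontrivial I] : ∃ (X : Type) (_ : TopologicalSpace X),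
    T35Space X ∧ LindelofSpace X ∧ OmegaStable X ∧
      (∀ m : ℕ, (¬ ∃ f : Fin m → I, Function.Surjective f) → LindelofSpace (Fin m → X)) ∧
      ¬ LindelofSpace (I → X) := by
  classical
  obtain ⟨Ω, _, _, _, hc⟩ := exists_omega
  choose C hC1 hC2 hC3 using exists_ladder hc
  have 𝒯 : ATree Ω (Node C) := Node.tree hc hC1 hC2 hC3
  have hT : Uncountable (Node C) := Node.uncountable (C := C) hc hC1 hC2 hC3
  obtain ⟨S0, hS1, hS2, hS3⟩ := exists_disjoint_seq hc
  obtain ⟨e, he⟩ := exists_injective_nat I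
  let A : I → Set Ω := fun i => {a | ∃ j, j ≠ i ∧ a ∈ S0 (e j)}
  have hAL : ∀ i, ∀ a ∈ A i, Lim a := by
    rintro i a ⟨j, -, ha⟩
    exact hS3 _ a ha
  have hbig : ∀ (m : ℕ) (f : Fin m → I), ¬ Function.Surjective f →
      ¬ SquareNotLindelof.Small (⋂ j, A (f j)) := by
    intro m f hf hsm
    unfold Function.Surjective at hf
    push Not at hf
    obtain ⟨j0, hj0⟩ := hf
    refine hS1 (e j0) (SquareNotLindelof.Small.mono (fun a ha => mem_iInter.2 fun j => ?_) hsm)
    exact ⟨j0, (hj0 j).symm, ha⟩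
  have hbig1 : ∀ i, ¬ SquareNotLindelof.Small (A i) := by
    intro i hsm
    obtain ⟨j, hj⟩ := exists_ne i
    refine hS1 (e j) (SquareNotLindelof.Small.mono (fun a ha => ?_) hsm)
    exact ⟨j, hj, ha⟩
  have hempty : ∀ a, ∃ i, a ∉ A i := by
    intro a
    obtain ⟨i0⟩ : Nonempty I := inferInstance
    by_cases h : ∃ j, a ∈ S0 (e j)
    · obtain ⟨j, hj⟩ := h
      refine ⟨j, ?_⟩
      rintro ⟨j', hne, hj'⟩
      exact Set.disjoint_left.1 (hS2 (e j) (e j') (fun h => hne (he h).symm)) hj hj'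
    · exact ⟨i0, fun ⟨j, _, hj⟩ => h ⟨j, hj⟩⟩
  have hLi : ∀ i, LindelofSpace (Sp 𝒯 (A i)) := fun i => lindelof 𝒯 hc (A i) (hbig1 i) (hAL i)
  have hTi : ∀ i, T3Space (Sp 𝒯 (A i)) := fun i =>
    t3 (𝒯 := 𝒯) (P := {t | 𝒯.lv t ∈ A i}) fun p hp => hAL i _ hp
  have hreg : RegularSpace (Σ i, Sp 𝒯 (A i)) := regular_sigma
  obtain ⟨i0⟩ : Nonempty I := inferInstance
  refine ⟨Σ i, Sp 𝒯 (A i), inferInstance, inferInstance, inferInstance,
    sum_omegaStable hc A hAL hbig1, fun m hm => ?_, power_not_lindelof A hAL hempty i0⟩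
  exact power_lindelof hc A hAL m fun f => hbig m f fun hf => hm ⟨f, hf⟩

end final

/-- For every cardinal `κ` with `2 ≤ κ ≤ ℵ₀` there is a Lindelöf `ω`-stable Tychonoff space `X`
such that, for every index set `J`, the power `X ^ J` is Lindelöf if and only if `J` has fewer than
`κ` elements. -/
theorem result (κ : Cardinal.{0}) (h2 : 2 ≤ κ) (hκ : κ ≤ Cardinal.aleph0) :
    ∃ (X : Type) (_ : TopologicalSpace X), T35Space X ∧ LindelofSpace X ∧ OmegaStable X ∧
      ∀ J : Type, LindelofSpace (J → X) ↔ Cardinal.mk J < κ := by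
  have hI : Cardinal.mk κ.out = κ := Cardinal.mk_out κ
  haveI : Countable κ.out := Cardinal.mk_le_aleph0_iff.1 (by rw [hI]; exact hκ)
  haveI : Nontrivial κ.out := Cardinal.one_lt_iff_nontrivial.1 (by
    rw [hI]
    exact lt_of_lt_of_le (by norm_num) h2)
  obtain ⟨X, tX, h1, h2, h3, h4, h5⟩ := main κ.out
  refine ⟨X, tX, h1, h2, h3, fun J => ⟨fun hL => ?_, fun hJ => ?_⟩⟩
  · by_contra hcon
    push Not at hcon
    have hle : Cardinal.mk κ.out ≤ Cardinal.mk J := by rw [hI]; exact hcon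
    obtain ⟨e⟩ := (Cardinal.le_def _ _).1 hle
    have hne : Nonempty X := by
      by_contra hX
      rw [not_nonempty_iff] at hX
      obtain ⟨i0⟩ : Nonempty κ.out := inferInstance
      haveI : IsEmpty (κ.out → X) := ⟨fun f => hX.false (f i0)⟩
      exact h5 inferInstance
    apply h5
    have hcont : Continuous (fun f : J → X => (fun i : κ.out => f (e i))) :=
      continuous_pi fun i => continuous_apply _
    have hrange : range (fun f : J → X => (fun i : κ.out => f (e i))) = univ := by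
      rw [range_eq_univ]
      intro x
      obtain ⟨x0⟩ := hne
      classical
      refine ⟨Function.extend e x fun _ => x0, ?_⟩
      funext i
      exact e.injective.extend_apply x _ i
    rw [← isLindelof_univ_iff, ← hrange]
    exact isLindelof_range hcont
  · haveI : Finite J := Cardinal.lt_aleph0_iff_finite.1 (hJ.trans_le hκ)
    obtain ⟨m, ⟨e⟩⟩ := Finite.exists_equiv_fin J
    have hm : LindelofSpace (Fin m → X) := by
      apply h4 m
      rintro ⟨f, hf⟩
      have h6 : Cardinal.mk κ.out ≤ Cardinal.mk J :=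
        Cardinal.mk_le_of_surjective (f := fun j => f (e j)) (hf.comp e.surjective)
      rw [hI] at h6
      exact absurd hJ (not_lt.2 h6)
    have hcont : Continuous (fun f : Fin m → X => (fun i : J => f (e i))) :=
      continuous_pi fun i => continuous_apply _
    have hrange : range (fun f : Fin m → X => (fun i : J => f (e i))) = univ := by
      rw [range_eq_univ]
      intro x
      refine ⟨fun i => x (e.symm i), ?_⟩
      funext i
      simp
    rw [← isLindelof_univ_iff, ← hrange]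
    exact isLindelof_range hcont

end Pool.Agent.Results.MP_b69c94_gt.ExactExponent
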